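import Pool.Agent.Y817.ISO.Stm
import Pool.Agent.Y43.CH.Syll
import Pool.Agent.Helper694.CS.J_hnn_tf

/-!
# The isomorphism type of the amalgam determines the exponent (project ISO, part INV)
-/

set_option autoImplicit false

namespace Pool.Agent.Y427.ISO

open Pool.Agent.Y817.ISO Monoid

theorem zmul_tf : ∀ k : Multiplicative ℤ, k ≠ 1 → ¬ IsOfFinOrder k := by
  intro k hk h
  obtain ⟨n, hn, h1⟩ := isOfFinOrder_iff_pow_eq_one.1 h
  apply hk
  have h2 : (n : ℤ) * k.toAdd = 0 := by
    have := congrArg Multiplicative.toAdd h1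
    rw [toAdd_pow, toAdd_one] at this
    simpa using this
  rcases mul_eq_zero.1 h2 with h3 | h3
  · exfalso
    have : (n : ℤ) ≠ 0 := by exact_mod_cast hn.ne'
    exact this h3
  · exact Multiplicative.toAdd.injective (by rw [h3, toAdd_one])

theorem bg_tf (g : ℤ) : TF (Bg g) := by
  intro x hx
  by_contra hne
  exact Pool.CS.hnn_tf _ zmul_tf x hne hx

section

variable {E U : Type} [Group E] [Group U] {β : E →* U}

theorem famHom_inj (hβ : Function.Injective β) : ∀ b, Function.Injective (famHom β b)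
  | false => hβ
  | true => fun _ _ h => (Prod.mk.inj h).1

/-- elements of the second factor -/
def oc (β : E →* U) (i : Multiplicative (ZMod 5)) : Amal β :=
  PushoutI.of (φ := famHom β) true ((1, i) : E × Multiplicative (ZMod 5))

theorem mem_of_commute (hβ : Function.Injective β) {i : Multiplicative (ZMod 5)} (hi : i ≠ 1)
    (g : Amal β) : Commute g (oc β i) ↔ g ∈ (PushoutI.of (φ := famHom β) true).range := by
  constructor
  · intro h
    refine Pool.Agent.Y43.CH.conj_factor (famHom_inj hβ) (i := true)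
      (x := ((1, i) : E × Multiplicative (ZMod 5))) ?_ (g := g) (b := true) ?_
    · rintro u ⟨e, he⟩
      have h2 : (1 : Multiplicative (ZMod 5)) = (u.2)⁻¹ * i * u.2 := congrArg Prod.snd he
      rw [mul_comm, mul_inv_cancel_left] at h2
      exact hi h2.symm
    · refine ⟨((1, i) : E × Multiplicative (ZMod 5)), ?_⟩
      have h3 : g⁻¹ * oc β i * g = oc β i := by
        rw [mul_assoc, ← h.eq, inv_mul_cancel_left]
      exact h3.symm
  · rintro ⟨x, rfl⟩
    have h4 : ∀ x : E × Multiplicative (ZMod 5), x * (1, i) = (1, i) * x := by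
      intro x
      refine Prod.ext ?_ ?_
      · change x.1 * 1 = 1 * x.1
        simp
      · exact mul_comm _ _
    change PushoutI.of (φ := famHom β) true x * PushoutI.of (φ := famHom β) true _ =
      PushoutI.of (φ := famHom β) true _ * PushoutI.of (φ := famHom β) true x
    rw [← map_mul, ← map_mul]
    exact congrArg _ (h4 x)

end

theorem tf_pow {G : Type} [Group G] (h : TF G) {x : G} {n : ℕ} (hn : n ≠ 0) (hx : x ^ n = 1) :
    x = 1 :=
  h x (isOfFinOrder_iff_pow_eq_one.2 ⟨n, Nat.pos_of_ne_zero hn, hx⟩)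

theorem iso_factor {E E' U : Type} [Group E] [Group E'] [Group U] {β : E →* U} {β' : E' →* U}
    (hE' : TF E') (hU : TF U) (hβ : Function.Injective β)
    (hβ' : Function.Injective β') (f : Amal β ≃* Amal β') :
    Nonempty ((E × Multiplicative (ZMod 5)) ≃* (E' × Multiplicative (ZMod 5))) := by
  have h1ne : (Multiplicative.ofAdd (1 : ZMod 5)) ≠ 1 := by decide
  have hc5 : (oc β (Multiplicative.ofAdd (1 : ZMod 5))) ^ 5 = 1 := by
    unfold oc
    rw [← map_pow]
    have : ((1, Multiplicative.ofAdd (1 : ZMod 5)) : E × Multiplicative (ZMod 5)) ^ 5 = 1 := by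
      refine Prod.ext ?_ ?_
      · change (1 : E) ^ 5 = 1
        simp
      · change (Multiplicative.ofAdd (1 : ZMod 5)) ^ 5 = 1
        decide
    exact (congrArg _ this).trans (map_one _)
  have hcne : oc β (Multiplicative.ofAdd (1 : ZMod 5)) ≠ 1 := by
    intro h
    have h2 := PushoutI.of_injective (famHom_inj hβ) true (h.trans (map_one _).symm)
    exact h1ne (congrArg Prod.snd h2)
  obtain ⟨d, b, y, hd, hy⟩ := Pool.Agent.Y43.CH.amalg_torsion (famHom_inj hβ')
    (f (oc β (Multiplicative.ofAdd (1 : ZMod 5)))) 5 (by norm_num) (by rw [← map_pow, hc5, map_one])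
  have hyne : y ≠ 1 := by
    rintro rfl
    rw [(PushoutI.of (φ := famHom β') b).map_one, mul_one, mul_inv_cancel] at hd
    exact hcne (f.injective (hd.trans (map_one f).symm))
  cases b with
  | false => exact absurd (tf_pow hU (by norm_num) hy) hyne
  | true =>
    have hy1 : y.1 = 1 := tf_pow hE' (by norm_num : (5 : ℕ) ≠ 0) (congrArg Prod.fst hy)
    have hy2 : y.2 ≠ 1 := fun h => hyne (Prod.ext hy1 h)
    have hy3 : PushoutI.of (φ := famHom β') true y = oc β' y.2 := by
      unfold oc
      exact congrArg _ (Prod.ext hy1 rfl)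
    let F : Amal β ≃* Amal β' := f.trans (MulAut.conj d⁻¹)
    have hF : F (oc β (Multiplicative.ofAdd (1 : ZMod 5))) = oc β' y.2 := by
      change MulAut.conj d⁻¹ (f (oc β (Multiplicative.ofAdd (1 : ZMod 5)))) = _
      rw [hd, MulAut.conj_apply, hy3]
      group
    have hmap : (PushoutI.of (φ := famHom β) true).range.map F.toMonoidHom =
        (PushoutI.of (φ := famHom β') true).range := by
      ext g
      rw [Subgroup.mem_map_equiv, ← mem_of_commute hβ h1ne, ← mem_of_commute hβ' hy2]
      constructor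
      · intro h
        have := h.map F
        rw [MulEquiv.apply_symm_apply, hF] at this
        exact this
      · intro h
        have := h.map F.symm
        rw [← hF, MulEquiv.symm_apply_apply] at this
        exact this
    have e1 : (PushoutI.of (φ := famHom β) true).range ≃*
        (PushoutI.of (φ := famHom β') true).range :=
      (F.subgroupMap _).trans (MulEquiv.subgroupCongr hmap)
    exact ⟨((MonoidHom.ofInjective (PushoutI.of_injective (famHom_inj hβ) true)).trans
      e1).trans (MonoidHom.ofInjective (PushoutI.of_injective (famHom_inj hβ') true)).symm⟩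

/-- The pairs which define a homomorphism of `Bg g`. -/
def Pairs (D : Type) [Group D] (g : ℤ) : Set (D × D) := {p | Commute p.2 (p.1 ^ g)}

/-- The homomorphism of `Bg g` defined by a pair. -/
noncomputable def bgLift {D : Type} [Group D] (g : ℤ) (z t : D) (h : Commute t (z ^ g)) :
    Bg g →* D :=
  HNNExtension.lift (zpowersHom D z) t (by
    rintro ⟨a, n, rfl⟩
    change t * zpowersHom D z (Multiplicative.ofAdd g ^ n) =
      zpowersHom D z (Multiplicative.ofAdd g ^ n) * t
    rw [map_zpow, zpowersHom_apply, toAdd_ofAdd]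
    exact (h.zpow_right n).eq)

theorem bgLift_of {D : Type} [Group D] (g : ℤ) (z t : D) (h : Commute t (z ^ g)) :
    bgLift g z t h (HNNExtension.of (Multiplicative.ofAdd 1)) = z := by
  unfold bgLift
  rw [HNNExtension.lift_of, zpowersHom_apply, toAdd_ofAdd, zpow_one]

theorem bgLift_t {D : Type} [Group D] (g : ℤ) (z t : D) (h : Commute t (z ^ g)) :
    bgLift g z t h HNNExtension.t = t := by
  unfold bgLift
  rw [HNNExtension.lift_t]

/-- Evaluation of a homomorphism at the generators. -/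
def ev {D : Type} [Group D] (g : ℤ) (F : Bg g × Multiplicative (ZMod 5) →* D) : D × D :=
  (F (HNNExtension.of (Multiplicative.ofAdd 1), 1), F (HNNExtension.t, 1))

theorem ev_mem {D : Type} [Group D] (g : ℤ) (F : Bg g × Multiplicative (ZMod 5) →* D) :
    ev g F ∈ Pairs D g := by
  change F (HNNExtension.t, 1) * (F (HNNExtension.of (Multiplicative.ofAdd 1), 1)) ^ g =
    (F (HNNExtension.of (Multiplicative.ofAdd 1), 1)) ^ g * F (HNNExtension.t, 1)
  rw [← map_zpow, ← map_mul, ← map_mul]
  congr 1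
  refine Prod.ext ?_ ?_
  · change (HNNExtension.t : Bg g) * (HNNExtension.of (Multiplicative.ofAdd 1)) ^ g =
      (HNNExtension.of (Multiplicative.ofAdd 1)) ^ g * HNNExtension.t
    have h := HNNExtension.t_mul_of (φ := MulEquiv.refl
      (Subgroup.zpowers (Multiplicative.ofAdd g))) ⟨Multiplicative.ofAdd g, 1, by simp⟩
    have h2 : (HNNExtension.of (Multiplicative.ofAdd 1) : Bg g) ^ g =
        HNNExtension.of (Multiplicative.ofAdd g) := by
      rw [← map_zpow, ← ofAdd_zsmul, smul_eq_mul, mul_one]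
    rw [h2]
    exact h
  · change (1 : Multiplicative (ZMod 5)) * 1 ^ g = 1 ^ g * 1
    simp

theorem ev_surj {D : Type} [Group D] (g : ℤ) {p : D × D} (hp : p ∈ Pairs D g) :
    ∃ F, ev g F = p := by
  refine ⟨(bgLift g p.1 p.2 hp).comp (MonoidHom.fst _ _), ?_⟩
  refine Prod.ext ?_ ?_
  · exact bgLift_of g p.1 p.2 hp
  · exact bgLift_t g p.1 p.2 hp

theorem ev_inj {D : Type} [Group D] (h5 : ∀ x : D, x ^ 5 = 1 → x = 1) (g : ℤ) :
    Function.Injective (ev (D := D) g) := by
  intro F F' h
  have h1 : F (HNNExtension.of (Multiplicative.ofAdd 1), 1) =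
      F' (HNNExtension.of (Multiplicative.ofAdd 1), 1) := congrArg Prod.fst h
  have h2 : F (HNNExtension.t, 1) = F' (HNNExtension.t, 1) := congrArg Prod.snd h
  have h3 : F.comp (MonoidHom.inl _ _) = F'.comp (MonoidHom.inl _ _) := by
    apply HNNExtension.hom_ext
    · apply MonoidHom.ext_mint
      exact h1
    · exact h2
  have h4 : ∀ (F : Bg g × Multiplicative (ZMod 5) →* D) i, F (1, i) = 1 := by
    intro F i
    apply h5
    rw [← map_pow]
    have : ((1, i) : Bg g × Multiplicative (ZMod 5)) ^ 5 = 1 := by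
      refine Prod.ext (one_pow _) ?_
      change i ^ 5 = 1
      revert i
      decide
    rw [this, map_one]
  apply MonoidHom.ext
  rintro ⟨x, i⟩
  have h6 : ((x, i) : Bg g × Multiplicative (ZMod 5)) = (x, 1) * (1, i) := by
    simp
  rw [h6, map_mul, map_mul, h4, h4]
  congr 1
  exact DFunLike.congr_fun h3 x

theorem card_pairs {D : Type} [Group D] (h5 : ∀ x : D, x ^ 5 = 1 → x = 1) (g : ℤ) :
    Nat.card (Bg g × Multiplicative (ZMod 5) →* D) = (Pairs D g).ncard := by
  have hr : Set.range (ev (D := D) g) = Pairs D g := by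
    ext p
    constructor
    · rintro ⟨F, rfl⟩
      exact ev_mem g F
    · intro hp
      exact ev_surj g hp
  rw [← hr, ← Nat.card_coe_set_eq]
  exact Nat.card_congr (Equiv.ofInjective _ (ev_inj h5 g))

theorem pairs_mono {D : Type} [Group D] {g g' : ℤ} (h : g ∣ g') : Pairs D g ⊆ Pairs D g' := by
  rintro ⟨z, t⟩ hp
  obtain ⟨k, rfl⟩ := h
  change Commute t (z ^ (g * k))
  rw [zpow_mul]
  exact Commute.zpow_right hp k

theorem dih5 (n : ℕ) (x : DihedralGroup (2 ^ n)) (hx : x ^ 5 = 1) : x = 1 := by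
  have hcard : Nat.card (DihedralGroup (2 ^ n)) = 2 * 2 ^ n := DihedralGroup.nat_card
  have h1 : orderOf x ∣ 5 := orderOf_dvd_of_pow_eq_one hx
  have h2 : orderOf x ∣ 2 ^ (n + 1) := by
    rw [pow_succ', ← hcard]
    exact orderOf_dvd_natCard x
  have h3 : Nat.Coprime 5 (2 ^ (n + 1)) := Nat.Coprime.pow_right _ (by norm_num)
  have h4 : orderOf x ∣ 1 := by
    rw [← h3]
    exact Nat.dvd_gcd h1 h2
  rw [← orderOf_eq_one_iff]
  exact Nat.dvd_one.1 h4

theorem sr_comm (n : ℕ) (i : ZMod n) :
    Commute (DihedralGroup.sr (0 : ZMod n)) (DihedralGroup.r i) ↔ 2 * i = 0 := by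
  change DihedralGroup.sr 0 * DihedralGroup.r i = DihedralGroup.r i * DihedralGroup.sr 0 ↔ _
  rw [DihedralGroup.sr_mul_r, DihedralGroup.r_mul_sr, zero_add, zero_sub,
    DihedralGroup.sr.injEq, two_mul, eq_neg_iff_add_eq_zero]

theorem not_lt_of_iso {U : Type} [Group U] {a b : ℕ} (β : Bg (2 ^ (a + 1)) →* U)
    (β' : Bg (2 ^ (b + 1)) →* U) (hU : TF U) (hβ : Function.Injective β)
    (hβ' : Function.Injective β') (f : Amal β ≃* Amal β') : ¬ a < b := by
  intro hab
  obtain ⟨e⟩ := iso_factor (bg_tf _) hU hβ hβ' f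
  let D := DihedralGroup (2 ^ (b + 2))
  have : NeZero (2 ^ (b + 2)) := ⟨by positivity⟩
  have h5 : ∀ x : D, x ^ 5 = 1 → x = 1 := dih5 _
  have hc : Nat.card (Bg (2 ^ (a + 1)) × Multiplicative (ZMod 5) →* D) =
      Nat.card (Bg (2 ^ (b + 1)) × Multiplicative (ZMod 5) →* D) :=
    Nat.card_congr e.monoidHomCongrLeftEquiv
  rw [card_pairs h5, card_pairs h5] at hc
  have hfin : Finite D := inferInstanceAs (Finite (DihedralGroup (2 ^ (b + 2))))
  have hss : Pairs D (2 ^ (a + 1)) ⊂ Pairs D (2 ^ (b + 1)) := by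
    refine (Set.ssubset_iff_of_subset (pairs_mono (pow_dvd_pow 2 (by omega)))).2 ?_
    refine ⟨(DihedralGroup.r 1, DihedralGroup.sr 0), ?_, ?_⟩
    · change Commute (DihedralGroup.sr 0) ((DihedralGroup.r 1) ^ ((2 : ℤ) ^ (b + 1)))
      have h1 : ((2 : ℤ) ^ (b + 1)) = ((2 ^ (b + 1) : ℕ) : ℤ) := by push_cast; rfl
      rw [h1, zpow_natCast, DihedralGroup.r_one_pow, sr_comm]
      have h2 : (2 : ZMod (2 ^ (b + 2))) * ((2 ^ (b + 1) : ℕ) : ZMod (2 ^ (b + 2))) =
          ((2 ^ (b + 2) : ℕ) : ZMod (2 ^ (b + 2))) := by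
        push_cast
        ring
      rw [h2, ZMod.natCast_self]
    · change ¬ Commute (DihedralGroup.sr 0) ((DihedralGroup.r 1) ^ ((2 : ℤ) ^ (a + 1)))
      have h1 : ((2 : ℤ) ^ (a + 1)) = ((2 ^ (a + 1) : ℕ) : ℤ) := by push_cast; rfl
      rw [h1, zpow_natCast, DihedralGroup.r_one_pow, sr_comm]
      have h2 : (2 : ZMod (2 ^ (b + 2))) * ((2 ^ (a + 1) : ℕ) : ZMod (2 ^ (b + 2))) =
          ((2 ^ (a + 2) : ℕ) : ZMod (2 ^ (b + 2))) := by
        push_cast
        ring
      rw [h2, ZMod.natCast_eq_zero_iff]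
      intro h3
      have := (Nat.pow_dvd_pow_iff_le_right (by norm_num : 1 < 2)).1 h3
      omega
  have := Set.ncard_lt_ncard hss (Set.toFinite _)
  omega

theorem t : StmInv := by
  intro U _ a b β β' hU hβ hβ' ⟨f⟩
  rcases lt_trichotomy a b with h | h | h
  · exact absurd h (not_lt_of_iso β β' hU hβ hβ' f)
  · exact h
  · exact absurd h (not_lt_of_iso β' β hU hβ' hβ f.symm)

end Pool.Agent.Y427.ISO
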